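import Pool.Agent.Q284.GE.Stm3
import Pool.Agent.Q166.GE.ExpoCore

/-!
# Project GE-PF of helper284, job GE-EXP2: truncated exponential, logarithmic derivative
-/

set_option autoImplicit false

open Finset Polynomial

namespace Pool.Agent.Q195.GE

open Pool.Agent.Q166.GE

theorem exp2_core (D : ℕ) (s : ℕ → ℂ) (ρ δ : ℝ) (hD : 1 ≤ D) (hρ : 1 < ρ) (hδ : 0 < δ) (hδ1 : δ ≤ 1)
    (hs1 : ∑ m ∈ (Icc 1 D).filter (fun m => 2 * m < D), ‖s m‖ ≤ δ * D / 16)
    (hyp : (∑ m ∈ (Icc 1 D).filter (fun m => 2 * m < D), ‖s m‖ / m * (1 + ρ ^ m)) +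
      2 * Real.log (ρ / (ρ - 1)) + Real.log ((D : ℝ) / 2 + 1) + Real.log (64 / δ) ≤
      (D : ℝ) / 2 * Real.log ρ) :
    ∃ A : ℂ[X], A.coeff 0 = 1 ∧ (∀ n : ℕ, D ≤ 2 * n → A.coeff n = 0) ∧
      (∀ z : ℂ, ‖z‖ ≤ 1 → A.eval z ≠ 0) ∧
      (∀ n : ℕ, 1 ≤ n → 2 * n < D → (n : ℂ) * A.coeff n = ∑ m ∈ Icc 1 n, s m * A.coeff (n - m)) ∧
      ∀ z : ℂ, ‖z‖ = 1 → ‖z * A.derivative.eval z‖ ≤ δ / 4 * D * ‖A.eval z‖ := by
  obtain ⟨S, hS⟩ : ∃ S : Finset ℕ, S = (Icc 1 D).filter (fun m => 2 * m < D) := ⟨_, rfl⟩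
  rw [← hS] at hyp hs1
  have hSm : ∀ m, m ∈ S ↔ 1 ≤ m ∧ 2 * m < D := by
    intro m
    rw [hS, Finset.mem_filter, Finset.mem_Icc]
    constructor
    · rintro ⟨⟨h1, -⟩, h2⟩
      exact ⟨h1, h2⟩
    · rintro ⟨h1, h2⟩
      exact ⟨⟨h1, by omega⟩, h2⟩
  obtain ⟨L, hL⟩ : ∃ L : ℂ[X], L = ∑ m ∈ S, C (s m / m) * X ^ m := ⟨_, rfl⟩
  have hLc : ∀ m, L.coeff m = if m ∈ S then s m / m else 0 := by
    intro m
    rw [hL, finsetSum_coeff]
    simp only [coeff_C_mul_X_pow]
    rw [Finset.sum_ite_eq]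
  have hL0 : L.eval 0 = 0 := by
    rw [← coeff_zero_eq_eval_zero, hLc, if_neg]
    rw [hSm]
    omega
  have hLn : ∀ z : ℂ, ∀ x : ℝ, ‖z‖ ≤ x → ‖L.eval z‖ ≤ ∑ m ∈ S, ‖s m‖ / m * x ^ m := by
    intro z x hz
    rw [hL, eval_finsetSum]
    refine (norm_sum_le _ _).trans (Finset.sum_le_sum fun m _ => ?_)
    rw [eval_mul, eval_C, eval_pow, eval_X, norm_mul, norm_div, norm_pow, Complex.norm_natCast]
    gcongr
  -- the exponential
  set E : ℂ → ℂ := fun z => Complex.exp (L.eval z) with hE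
  have hEd : Differentiable ℂ E := fun z => (L.differentiable z).cexp
  have hE' : deriv E = (fun z => (derivative L).eval z) * E := by
    funext z
    have h1 := ((L.hasDerivAt z).cexp).deriv
    rw [hE, h1, Pi.mul_apply]
    ring
  set e : ℕ → ℂ := fun n => iteratedDeriv n E 0 / n.factorial with he
  have he0 : e 0 = 1 := by
    rw [he]
    simp only [iteratedDeriv_zero, hE, hL0]
    simp
  have hite : ∀ n, iteratedDeriv n E 0 = n.factorial * e n := by
    intro n
    have hf : (n.factorial : ℂ) ≠ 0 := by exact_mod_cast Nat.factorial_ne_zero n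
    rw [he]
    simp only
    rw [mul_div_cancel₀ _ hf]
  have hrec : ∀ n, ((n + 1 : ℕ) : ℂ) * e (n + 1) =
      ∑ i ∈ range (n + 1), (if i + 1 ∈ S then s (i + 1) else 0) * e (n - i) := by
    intro n
    have h1 : iteratedDeriv (n + 1) E 0 = ∑ i ∈ range (n + 1), (n.choose i : ℂ) *
        iteratedDeriv i (fun z : ℂ => (derivative L).eval z) 0 * iteratedDeriv (n - i) E 0 := by
      rw [iteratedDeriv_succ', hE', iteratedDeriv_mul]
      · exact (derivative L).differentiable.contDiff.contDiffAt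
      · exact hEd.contDiff.contDiffAt
    rw [hite] at h1
    have h2 : ∀ i ∈ range (n + 1), (n.choose i : ℂ) *
        iteratedDeriv i (fun z : ℂ => (derivative L).eval z) 0 * iteratedDeriv (n - i) E 0 =
        n.factorial * ((if i + 1 ∈ S then s (i + 1) else 0) * e (n - i)) := by
      intro i hi
      have hin : i ≤ n := by
        have := Finset.mem_range.mp hi
        omega
      rw [iter_poly_zero, hite, coeff_derivative, hLc]
      have h3 : (n.choose i : ℂ) * i.factorial * (n - i).factorial = n.factorial := by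
        exact_mod_cast Nat.choose_mul_factorial_mul_factorial hin
      have h4 : (if i + 1 ∈ S then s (i + 1) / ((i + 1 : ℕ) : ℂ) else 0) * ((i : ℂ) + 1) =
          if i + 1 ∈ S then s (i + 1) else 0 := by
        have : ((i : ℂ) + 1) ≠ 0 := by exact_mod_cast Nat.succ_ne_zero i
        split_ifs
        · push_cast
          field_simp
        · simp
      rw [h4, ← h3]
      ring
    rw [Finset.sum_congr rfl h2, ← Finset.mul_sum] at h1
    have h5 : ((n + 1).factorial : ℂ) = n.factorial * ((n + 1 : ℕ) : ℂ) := by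
      rw [Nat.factorial_succ]
      push_cast
      ring
    rw [h5, mul_assoc] at h1
    have h6 : (n.factorial : ℂ) ≠ 0 := by exact_mod_cast Nat.factorial_ne_zero n
    exact mul_left_cancel₀ h6 h1
  -- Cauchy
  have hρ0 : 0 < ρ := by linarith
  obtain ⟨M, hM⟩ : ∃ M : ℝ, M = Real.exp (∑ m ∈ S, ‖s m‖ / m * ρ ^ m) := ⟨_, rfl⟩
  have hM0 : 0 < M := by
    rw [hM]
    exact Real.exp_pos _
  have hen : ∀ n, ‖e n‖ ≤ M * (ρ⁻¹) ^ n := by
    intro n
    have h1 := Complex.norm_iteratedDeriv_le_of_forall_mem_sphere_norm_le (c := 0) (R := ρ) (C := M)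
      (f := E) n hρ0 hEd.diffContOnCl (fun z hz => by
        rw [hE, Complex.norm_exp, hM]
        refine Real.exp_le_exp.mpr ((Complex.re_le_norm _).trans (hLn z ρ ?_))
        exact (mem_sphere_zero_iff_norm.mp hz).le)
    have hf : (0 : ℝ) < n.factorial := by exact_mod_cast Nat.factorial_pos n
    rw [he]
    simp only
    rw [norm_div, Complex.norm_natCast, div_le_iff₀ hf]
    refine h1.trans (le_of_eq ?_)
    rw [inv_pow]
    field_simp
  -- the polynomial
  obtain ⟨n0, hn0⟩ : ∃ n0 : ℕ, n0 = (D + 1) / 2 := ⟨_, rfl⟩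
  have hn0m : ∀ n, n < n0 ↔ 2 * n < D := by
    intro n
    omega
  obtain ⟨A, hA⟩ : ∃ A : ℂ[X], A = ∑ n ∈ range n0, C (e n) * X ^ n := ⟨_, rfl⟩
  have hAc : ∀ n, A.coeff n = if 2 * n < D then e n else 0 := by
    intro n
    rw [hA, finsetSum_coeff]
    simp only [coeff_C_mul_X_pow]
    rw [Finset.sum_ite_eq]
    simp only [Finset.mem_range, hn0m]
  -- the tail
  obtain ⟨x, hx⟩ : ∃ x : ℝ, x = ρ⁻¹ := ⟨_, rfl⟩
  have hx0 : 0 < x := by rw [hx]; positivity
  have hx1 : x < 1 := by rw [hx]; exact inv_lt_one_of_one_lt₀ hρ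
  have hg0 : HasSum (fun n : ℕ => x ^ n) (1 - x)⁻¹ := hasSum_geometric_of_lt_one hx0.le hx1
  have hg1 : HasSum (fun n : ℕ => (n : ℝ) * x ^ n) (x / (1 - x) ^ 2) :=
    hasSum_coe_mul_geometric_of_norm_lt_one (by rwa [Real.norm_of_nonneg hx0.le])
  obtain ⟨τ, hτ⟩ : ∃ τ : ℝ, τ = M * x ^ n0 * ((n0 + 1) / (1 - x) ^ 2) := ⟨_, rfl⟩
  have h1x : 0 < 1 - x := by linarith
  have hτ0 : M * x ^ n0 * (1 - x)⁻¹ ≤ τ := by
    rw [hτ]
    apply mul_le_mul_of_nonneg_left _ (by positivity)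
    rw [inv_eq_one_div, div_le_div_iff₀ h1x (by positivity)]
    have hn : (0 : ℝ) ≤ n0 := Nat.cast_nonneg _
    nlinarith
  have hτ1 : M * x ^ n0 * (n0 * (1 - x)⁻¹ + x / (1 - x) ^ 2) ≤ τ := by
    rw [hτ]
    apply mul_le_mul_of_nonneg_left _ (by positivity)
    have e1 : (n0 : ℝ) * (1 - x)⁻¹ + x / (1 - x) ^ 2 = (n0 * (1 - x) + x) / (1 - x) ^ 2 := by
      field_simp
    rw [e1]
    apply div_le_div_of_nonneg_right _ (by positivity)
    have hn : (0 : ℝ) ≤ n0 := Nat.cast_nonneg _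
    nlinarith
  have htail0 : ∀ z : ℂ, ‖z‖ ≤ 1 → ‖E z - A.eval z‖ ≤ τ := by
    intro z hz
    have hsum : HasSum (fun n => e n * z ^ n) (E z) := by
      have h1 := Complex.hasSum_taylorSeries_of_entire hEd 0 z
      have h2 : (fun n => e n * z ^ n) =
          fun n : ℕ => (n.factorial : ℂ)⁻¹ • (z - 0) ^ n • iteratedDeriv n E 0 := by
        funext n
        rw [he]
        simp only [sub_zero, smul_eq_mul]
        ring
      rw [h2]
      exact h1
    have hsplit := hsum.summable.sum_add_tsum_nat_add n0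
    rw [hsum.tsum_eq] at hsplit
    have hAe : ∑ n ∈ range n0, e n * z ^ n = A.eval z := by
      rw [hA, eval_finsetSum]
      refine Finset.sum_congr rfl fun n _ => ?_
      rw [eval_mul, eval_C, eval_pow, eval_X]
    rw [hAe] at hsplit
    have e1 : E z - A.eval z = ∑' n, e (n + n0) * z ^ (n + n0) := by
      rw [← hsplit]
      ring
    rw [e1]
    refine le_trans ?_ hτ0
    refine tsum_of_norm_bounded (hg0.mul_left (M * x ^ n0)) fun n => ?_
    rw [norm_mul, norm_pow]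
    have h1 := hen (n + n0)
    rw [← hx] at h1
    have h2 : ‖z‖ ^ (n + n0) ≤ 1 := pow_le_one₀ (norm_nonneg _) hz
    calc ‖e (n + n0)‖ * ‖z‖ ^ (n + n0) ≤ ‖e (n + n0)‖ * 1 := by gcongr
      _ ≤ M * x ^ (n + n0) := by
        rw [mul_one]
        exact h1
      _ = _ := by
        rw [pow_add]
        ring
  have htail1 : ∀ z : ℂ, ‖z‖ ≤ 1 → ‖z * deriv E z - z * A.derivative.eval z‖ ≤ τ := by
    intro z hz
    have hsum : HasSum (fun n : ℕ => (n : ℂ) * e n * z ^ n) (z * deriv E z) := by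
      have hEd' : Differentiable ℂ (deriv E) := by
        rw [hE']
        exact (derivative L).differentiable.mul hEd
      have h1 := (Complex.hasSum_taylorSeries_of_entire hEd' 0 z).mul_left z
      have h2 : (fun n : ℕ => ((n + 1 : ℕ) : ℂ) * e (n + 1) * z ^ (n + 1)) =
          fun n : ℕ => z * ((n.factorial : ℂ)⁻¹ • (z - 0) ^ n • iteratedDeriv n (deriv E) 0) := by
        funext n
        have hf : (n.factorial : ℂ) ≠ 0 := by exact_mod_cast Nat.factorial_ne_zero n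
        rw [← iteratedDeriv_succ', hite]
        simp only [sub_zero, smul_eq_mul]
        rw [Nat.factorial_succ]
        push_cast
        field_simp
        ring
      rw [← h2] at h1
      have h3 := (hasSum_nat_add_iff (f := fun n : ℕ => (n : ℂ) * e n * z ^ n) 1).1 h1
      simpa using h3
    have hsplit := hsum.summable.sum_add_tsum_nat_add n0
    rw [hsum.tsum_eq] at hsplit
    have hAe : ∑ n ∈ range n0, (n : ℂ) * e n * z ^ n = z * A.derivative.eval z := by
      rw [hA, derivative_sum, eval_finsetSum, Finset.mul_sum]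
      refine Finset.sum_congr rfl fun n _ => ?_
      rw [derivative_C_mul_X_pow, eval_mul, eval_C, eval_pow, eval_X]
      rcases Nat.eq_zero_or_pos n with rfl | hn
      · simp
      · have : z ^ n = z * z ^ (n - 1) := by
          rw [← pow_succ', Nat.sub_add_cancel hn]
        rw [this]
        ring
    rw [hAe] at hsplit
    have e1 : z * deriv E z - z * A.derivative.eval z =
        ∑' n, ((n + n0 : ℕ) : ℂ) * e (n + n0) * z ^ (n + n0) := by
      rw [← hsplit]
      ring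
    rw [e1]
    refine le_trans ?_ hτ1
    refine tsum_of_norm_bounded (((hg0.mul_left (n0 : ℝ)).add hg1).mul_left (M * x ^ n0)) fun n => ?_
    rw [norm_mul, norm_mul, norm_pow, Complex.norm_natCast]
    have h1 := hen (n + n0)
    rw [← hx] at h1
    have h2 : ‖z‖ ^ (n + n0) ≤ 1 := pow_le_one₀ (norm_nonneg _) hz
    calc ((n + n0 : ℕ) : ℝ) * ‖e (n + n0)‖ * ‖z‖ ^ (n + n0)
        ≤ ((n + n0 : ℕ) : ℝ) * ‖e (n + n0)‖ * 1 := by gcongr
      _ ≤ ((n + n0 : ℕ) : ℝ) * (M * x ^ (n + n0)) := by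
        rw [mul_one]
        exact mul_le_mul_of_nonneg_left h1 (Nat.cast_nonneg _)
      _ = _ := by
        rw [pow_add]
        push_cast
        ring
  -- the size of the tail
  have hlow : ∀ z : ℂ, ‖z‖ ≤ 1 → Real.exp (-∑ m ∈ S, ‖s m‖ / m * 1 ^ m) ≤ ‖E z‖ := by
    intro z hz
    rw [hE, Complex.norm_exp]
    refine Real.exp_le_exp.mpr ?_
    have h1 := hLn z 1 hz
    have h2 := Complex.abs_re_le_norm (L.eval z)
    have h3 := neg_abs_le (L.eval z).re
    linarith
  have hD0 : (1 : ℝ) ≤ D := by exact_mod_cast hD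
  have hτs : τ ≤ δ / 32 * Real.exp (-∑ m ∈ S, ‖s m‖ / m * 1 ^ m) := by
    have hlogρ : 0 < Real.log ρ := Real.log_pos hρ
    have hn0D : (D : ℝ) / 2 ≤ n0 := by
      have : D ≤ 2 * n0 := by omega
      have h1 : (D : ℝ) ≤ 2 * n0 := by exact_mod_cast this
      linarith
    have hn0D' : (n0 : ℝ) + 1 ≤ 2 * ((D : ℝ) / 2 + 1) := by
      have : 2 * n0 ≤ D + 1 := by omega
      have h1 : 2 * (n0 : ℝ) ≤ D + 1 := by exact_mod_cast this
      linarith
    have hrat : 1 / (1 - x) = ρ / (ρ - 1) := by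
      rw [hx]
      have : ρ - 1 ≠ 0 := by linarith
      field_simp
    have hpos1 : 0 < ρ / (ρ - 1) := div_pos hρ0 (by linarith)
    have hxn : x ^ n0 ≤ Real.exp (-((D : ℝ) / 2 * Real.log ρ)) := by
      have h1 : x ^ n0 = Real.exp (-(n0 * Real.log ρ)) := by
        rw [hx, inv_pow, Real.exp_neg, Real.exp_nat_mul, Real.exp_log hρ0]
      rw [h1]
      apply Real.exp_le_exp.mpr
      have h7 := mul_le_mul_of_nonneg_right hn0D hlogρ.le
      linarith
    have h2 : ((n0 : ℝ) + 1) / (1 - x) ^ 2 ≤ 2 * ((D : ℝ) / 2 + 1) * (ρ / (ρ - 1)) ^ 2 := by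
      rw [← hrat, div_pow, one_pow, mul_one_div]
      exact div_le_div_of_nonneg_right hn0D' (by positivity)
    have h3 : τ ≤ Real.exp (∑ m ∈ S, ‖s m‖ / m * ρ ^ m) * Real.exp (-((D : ℝ) / 2 * Real.log ρ)) *
        (2 * ((D : ℝ) / 2 + 1) * (ρ / (ρ - 1)) ^ 2) := by
      rw [hτ, hM]
      gcongr
    refine h3.trans ?_
    have h4 : (ρ / (ρ - 1)) ^ 2 = Real.exp (2 * Real.log (ρ / (ρ - 1))) := by
      have h5 := Real.exp_nat_mul (Real.log (ρ / (ρ - 1))) 2
      rw [Real.exp_log hpos1] at h5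
      rw [← h5]
      norm_num
    have h5 : (D : ℝ) / 2 + 1 = Real.exp (Real.log ((D : ℝ) / 2 + 1)) := by
      rw [Real.exp_log (by linarith)]
    have h6 : δ / 32 = 2 * Real.exp (-Real.log (64 / δ)) := by
      rw [Real.exp_neg, Real.exp_log (by positivity)]
      field_simp
      norm_num
    have hsumsplit : ∑ m ∈ S, ‖s m‖ / m * (1 + ρ ^ m) =
        (∑ m ∈ S, ‖s m‖ / m * 1 ^ m) + ∑ m ∈ S, ‖s m‖ / m * ρ ^ m := by
      rw [← Finset.sum_add_distrib]
      refine Finset.sum_congr rfl fun m _ => ?_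
      rw [one_pow]
      ring
    rw [hsumsplit] at hyp
    rw [h4, h6]
    have h7 : Real.exp (∑ m ∈ S, ‖s m‖ / m * ρ ^ m) * Real.exp (-((D : ℝ) / 2 * Real.log ρ)) *
        (2 * ((D : ℝ) / 2 + 1) * Real.exp (2 * Real.log (ρ / (ρ - 1)))) =
        2 * Real.exp ((∑ m ∈ S, ‖s m‖ / m * ρ ^ m) - (D : ℝ) / 2 * Real.log ρ +
          Real.log ((D : ℝ) / 2 + 1) + 2 * Real.log (ρ / (ρ - 1))) := by
      have g1 : ∀ u v a b : ℝ, Real.exp u * Real.exp (-v) * (2 * Real.exp a * Real.exp b) =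
          2 * Real.exp (u - v + a + b) := by
        intro u v a b
        rw [Real.exp_add, Real.exp_add, sub_eq_add_neg, Real.exp_add]
        ring
      rw [← g1, ← h5]
    have h8 : 2 * Real.exp (-Real.log (64 / δ)) * Real.exp (-∑ m ∈ S, ‖s m‖ / m * 1 ^ m) =
        2 * Real.exp (-Real.log (64 / δ) - ∑ m ∈ S, ‖s m‖ / m * 1 ^ m) := by
      rw [sub_eq_add_neg, Real.exp_add]
      ring
    rw [h7, h8]
    apply mul_le_mul_of_nonneg_left _ (by norm_num)
    apply Real.exp_le_exp.mpr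
    linarith
  have hτE : ∀ z : ℂ, ‖z‖ ≤ 1 → τ ≤ δ / 32 * ‖E z‖ := by
    intro z hz
    exact hτs.trans (mul_le_mul_of_nonneg_left (hlow z hz) (by positivity))
  have hAE : ∀ z : ℂ, ‖z‖ ≤ 1 → 31 / 32 * ‖E z‖ ≤ ‖A.eval z‖ := by
    intro z hz
    have h1 := htail0 z hz
    have h2 := hτE z hz
    have h3 : ‖E z‖ ≤ ‖E z - A.eval z‖ + ‖A.eval z‖ := by
      have := norm_add_le (E z - A.eval z) (A.eval z)
      rwa [sub_add_cancel] at this
    have h4 : δ / 32 * ‖E z‖ ≤ 1 / 32 * ‖E z‖ :=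
      mul_le_mul_of_nonneg_right (by linarith) (norm_nonneg _)
    linarith
  refine ⟨A, ?_, ?_, ?_, ?_, ?_⟩
  · rw [hAc, if_pos (by omega), he0]
  · intro n hn
    rw [hAc, if_neg (by omega)]
  · intro z hz hAz
    have h1 := hAE z hz
    rw [hAz, norm_zero] at h1
    have h2 : 0 < ‖E z‖ := lt_of_lt_of_le (Real.exp_pos _) (hlow z hz)
    linarith
  · intro n hn1 hn2
    obtain ⟨k, rfl⟩ : ∃ k, n = k + 1 := ⟨n - 1, by omega⟩
    rw [hAc, if_pos hn2, hrec]
    refine Finset.sum_nbij' (fun i => i + 1) (fun m => m - 1) ?_ ?_ ?_ ?_ ?_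
    · intro i hi
      simp only [Finset.mem_range, Finset.mem_Icc] at hi ⊢
      omega
    · intro m hm
      simp only [Finset.mem_range, Finset.mem_Icc] at hm ⊢
      omega
    · intro i _
      simp
    · intro m hm
      simp only [Finset.mem_Icc] at hm
      omega
    · intro i hi
      simp only [Finset.mem_range] at hi
      rw [if_pos ((hSm _).mpr ⟨by omega, by omega⟩), hAc, if_pos (by omega),
        show k + 1 - (i + 1) = k - i by omega]
  · intro z hz
    have h1 := htail1 z hz.le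
    have h2 := hτE z hz.le
    have h3 := hAE z hz.le
    have h4 : ‖z * A.derivative.eval z‖ ≤ ‖z * deriv E z‖ + τ := by
      have h5 := norm_sub_norm_le (z * A.derivative.eval z) (z * deriv E z)
      rw [norm_sub_rev] at h5
      linarith
    have h5 : ‖z * deriv E z‖ ≤ δ * D / 16 * ‖E z‖ := by
      rw [hE', Pi.mul_apply, ← mul_assoc, norm_mul]
      apply mul_le_mul_of_nonneg_right _ (norm_nonneg _)
      refine le_trans ?_ hs1
      have h6 : z * (derivative L).eval z = ∑ m ∈ S, s m * z ^ m := by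
        rw [hL, derivative_sum, eval_finsetSum, Finset.mul_sum]
        refine Finset.sum_congr rfl fun m hm => ?_
        have hm1 := ((hSm m).1 hm).1
        rw [derivative_C_mul_X_pow, eval_mul, eval_C, eval_pow, eval_X]
        have : z ^ m = z * z ^ (m - 1) := by
          rw [← pow_succ', Nat.sub_add_cancel hm1]
        have hm0 : (m : ℂ) ≠ 0 := by exact_mod_cast (by omega : m ≠ 0)
        rw [this]
        field_simp
      rw [h6]
      refine (norm_sum_le _ _).trans (Finset.sum_le_sum fun m _ => ?_)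
      rw [norm_mul, norm_pow, hz, one_pow, mul_one]
    have hE0 : 0 ≤ ‖E z‖ := norm_nonneg _
    have hδD : δ ≤ δ * D := le_mul_of_one_le_right hδ.le hD0
    have h6 : ‖z * A.derivative.eval z‖ ≤ (3 / 32) * (δ * D) * ‖E z‖ := by
      have h7 : δ / 32 * ‖E z‖ ≤ (δ * D) / 32 * ‖E z‖ :=
        mul_le_mul_of_nonneg_right (by linarith) hE0
      calc ‖z * A.derivative.eval z‖ ≤ δ * D / 16 * ‖E z‖ + (δ * D) / 32 * ‖E z‖ := by linarith
        _ = _ := by ring
    refine h6.trans ?_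
    have h7 : 0 ≤ δ * D := by positivity
    have h8 : (δ * D) * (31 / 32 * ‖E z‖) ≤ (δ * D) * ‖A.eval z‖ := mul_le_mul_of_nonneg_left h3 h7
    have h9 : 0 ≤ (δ * D) * ‖E z‖ := by positivity
    have h10 : δ / 4 * D * ‖A.eval z‖ = 1 / 4 * ((δ * D) * ‖A.eval z‖) := by ring
    have h11 : 3 / 32 * (δ * D) * ‖E z‖ = 3 / 32 * ((δ * D) * ‖E z‖) := by ring
    rw [h10, h11]
    have h12 : (δ * D) * (31 / 32 * ‖E z‖) = 31 / 32 * ((δ * D) * ‖E z‖) := by ring
    rw [h12] at h8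
    linarith

theorem t_EXP2 : Pool.Agent.Q284.GE.S_EXP2 :=
  fun D s ρ δ hD hρ hδ hδ1 hs hyp => exp2_core D s ρ δ hD hρ hδ hδ1 hs hyp

end Pool.Agent.Q195.GE
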