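import Pool.Agent.Q284.GE.Stm3
import Pool.Agent.Q224.GE.NUM

/-!
# Project GE-PF of helper284, job GE-NUM2: numerical inequalities
-/

set_option autoImplicit false

open Finset Filter
open scoped Topology

namespace Pool.Agent.Q195.GE

open Pool.Agent.Q284.GE (Num eta al Rm Lm)
open Pool.Agent.Q224.GE

/-- the two sum conditions -/
theorem est2 {q B κ δ' : ℝ} {ν M : ℕ} (hq : 2 ≤ q) (hB : 0 ≤ B) (hκ : 0 < κ) (hκ2 : κ ≤ 1 / 36) (hδ' : 0 < δ')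
    (hν : 9 ≤ ν) (hM : 3 ≤ M)
    (h1 : (2 : ℝ) ^ (3 - (M : ℝ)) * (96 * (∑' m : ℕ, ((2 : ℝ) ^ (-(1 / 24 : ℝ))) ^ m) +
      22 * (∑' m : ℕ, (m : ℝ) * ((2 : ℝ) ^ (-(1 / 24 : ℝ))) ^ m) +
      144 * B * (∑' m : ℕ, (m : ℝ) * ((2 : ℝ) ^ (-(κ / 2))) ^ m)) ≤ κ / 20)
    (h2 : 20 * (2 * B * (∑' m : ℕ, ((2 : ℝ) ^ (-(κ / 2))) ^ m) +
      2 * Real.log (1 / (1 - (2 : ℝ) ^ (-(κ / 2)))) + Real.log (25 / κ) + Real.log (64 / δ')) / κ ≤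
        9 * ((M : ℝ) - 2))
    (h3 : (2 : ℝ) ^ (3 - (M : ℝ)) * (48 * (∑' m : ℕ, (m : ℝ) * ((2 : ℝ) ^ (-(1 / 24 : ℝ))) ^ m) +
      11 * (∑' m : ℕ, (m : ℝ) ^ 2 * ((2 : ℝ) ^ (-(1 / 24 : ℝ))) ^ m) +
      72 * B * (∑' m : ℕ, (m : ℝ) ^ 2 * ((2 : ℝ) ^ (-(κ / 2))) ^ m)) ≤ δ' / 32)
    (h4 : 32 * (B * (∑' m : ℕ, (m : ℝ) * ((2 : ℝ) ^ (-(κ / 2))) ^ m)) / δ' ≤ 9 * ((M : ℝ) - 2))
    (c D : ℕ) (hc : ν * (c - 1) ≤ D) (hD : ν * (M - 2) ≤ D) (x : ℕ → ℝ)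
    (hx : ∀ m, 1 ≤ m → 2 * m < D → 0 ≤ x m ∧ x m ≤ Lm q ν M c m + Rm q B κ M m) :
    ∑ m ∈ (Icc 1 D).filter (fun m => 2 * m < D), x m ≤ δ' * D / 16 ∧
    (∑ m ∈ (Icc 1 D).filter (fun m => 2 * m < D), x m / m * (1 + (q ^ (κ / 2)) ^ m)) +
      2 * Real.log (q ^ (κ / 2) / (q ^ (κ / 2) - 1)) + Real.log ((D : ℝ) / 2 + 1) + Real.log (64 / δ') ≤
      (D : ℝ) / 2 * Real.log (q ^ (κ / 2)) := by
  obtain ⟨r₁, hr₁⟩ : ∃ r₁ : ℝ, r₁ = (2 : ℝ) ^ (-(1 / 24 : ℝ)) := ⟨_, rfl⟩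
  obtain ⟨r₂, hr₂⟩ : ∃ r₂ : ℝ, r₂ = (2 : ℝ) ^ (-(κ / 2)) := ⟨_, rfl⟩
  obtain ⟨δ, hδ⟩ : ∃ δ : ℝ, δ = (2 : ℝ) ^ (3 - (M : ℝ)) := ⟨_, rfl⟩
  obtain ⟨ρ, hρ⟩ : ∃ ρ : ℝ, ρ = q ^ (κ / 2) := ⟨_, rfl⟩
  rw [← hr₁, ← hr₂, ← hδ] at h1 h3
  rw [← hr₂] at h2 h4
  rw [← hρ]
  have hq0 : 0 < q := by linarith
  have hMr : (3 : ℝ) ≤ M := by exact_mod_cast hM
  have hνr : (9 : ℝ) ≤ ν := by exact_mod_cast hν
  have hr1p : 0 < r₁ := by rw [hr₁]; exact Real.rpow_pos_of_pos (by norm_num) _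
  have hr1l : r₁ < 1 := by rw [hr₁]; exact Real.rpow_lt_one_of_one_lt_of_neg (by norm_num) (by norm_num)
  have hr2p : 0 < r₂ := by rw [hr₂]; exact Real.rpow_pos_of_pos (by norm_num) _
  have hr2l : r₂ < 1 := by rw [hr₂]; exact Real.rpow_lt_one_of_one_lt_of_neg (by norm_num) (by linarith)
  have hδp : 0 < δ := by rw [hδ]; exact Real.rpow_pos_of_pos (by norm_num) _
  have hρ1 : 1 < ρ := by rw [hρ]; exact Real.one_lt_rpow (by linarith) (by linarith)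
  -- powers
  have p1 : ∀ m : ℕ, q ^ (3 - (M : ℝ) - eta ν * m) * ρ ^ m ≤ δ * r₁ ^ m := by
    intro m
    have e1 : q ^ (3 - (M : ℝ) - eta ν * m) * ρ ^ m = q ^ (3 - (M : ℝ) - eta ν * m + κ / 2 * m) := by
      rw [hρ, ← Real.rpow_mul_natCast hq0.le, ← Real.rpow_add hq0]
    have e2 : δ * r₁ ^ m = 2 ^ (3 - (M : ℝ) + -(1 / 24) * m) := by
      rw [hδ, hr₁, ← Real.rpow_mul_natCast (by norm_num), ← Real.rpow_add (by norm_num)]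
    rw [e1, e2]
    refine pw hq ?_ ?_
    · have h3 := eta_ge hν
      have h4 : (1 / 24 : ℝ) * m ≤ (eta ν - κ / 2) * m :=
        mul_le_mul_of_nonneg_right (by linarith) (by positivity)
      linarith
    · have : (0 : ℝ) ≤ m := by positivity
      linarith
  have p2 : ∀ m : ℕ, q ^ (3 - (M : ℝ) - κ * m) * ρ ^ m ≤ δ * r₂ ^ m := by
    intro m
    have e1 : q ^ (3 - (M : ℝ) - κ * m) * ρ ^ m = q ^ (3 - (M : ℝ) - κ * m + κ / 2 * m) := by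
      rw [hρ, ← Real.rpow_mul_natCast hq0.le, ← Real.rpow_add hq0]
    have e2 : δ * r₂ ^ m = 2 ^ (3 - (M : ℝ) + -(κ / 2) * m) := by
      rw [hδ, hr₂, ← Real.rpow_mul_natCast (by norm_num), ← Real.rpow_add (by norm_num)]
    rw [e1, e2]
    have h3 : 0 ≤ κ * m := by positivity
    refine pw hq ?_ ?_ <;> linarith
  have p3 : ∀ m : ℕ, q ^ (-(κ * m)) * ρ ^ m ≤ r₂ ^ m := by
    intro m
    have e1 : q ^ (-(κ * m)) * ρ ^ m = q ^ (-(κ * m) + κ / 2 * m) := by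
      rw [hρ, ← Real.rpow_mul_natCast hq0.le, ← Real.rpow_add hq0]
    have e2 : r₂ ^ m = 2 ^ (-(κ / 2) * m) := by
      rw [hr₂, ← Real.rpow_mul_natCast (by norm_num)]
    rw [e1, e2]
    have h3 : 0 ≤ κ * m := by positivity
    refine pw hq ?_ ?_ <;> linarith
  have hρm : ∀ m : ℕ, 1 ≤ ρ ^ m := fun m => one_le_pow₀ hρ1.le
  have p1' : ∀ m : ℕ, q ^ (3 - (M : ℝ) - eta ν * m) ≤ δ * r₁ ^ m := fun m =>
    (le_mul_of_one_le_right (Real.rpow_pos_of_pos hq0 _).le (hρm m)).trans (p1 m)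
  have p2' : ∀ m : ℕ, q ^ (3 - (M : ℝ) - κ * m) ≤ δ * r₂ ^ m := fun m =>
    (le_mul_of_one_le_right (Real.rpow_pos_of_pos hq0 _).le (hρm m)).trans (p2 m)
  have p3' : ∀ m : ℕ, q ^ (-(κ * m)) ≤ r₂ ^ m := fun m =>
    (le_mul_of_one_le_right (Real.rpow_pos_of_pos hq0 _).le (hρm m)).trans (p3 m)
  have hcm : ∀ m : ℕ, (c : ℝ) + 2 * m / ν + 3 ≤ c + 3 + 2 / 9 * m := by
    intro m
    have : 2 * (m : ℝ) / ν ≤ 2 * m / 9 := div_le_div_of_nonneg_left (by positivity) (by norm_num) hνr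
    linarith
  -- one term
  have term : ∀ m ∈ (Icc 1 D).filter (fun m => 2 * m < D), x m / m * (1 + ρ ^ m) ≤
      δ * (96 * (c + 3) * r₁ ^ m + 96 * (2 / 9) * (m * r₁ ^ m) + 144 * B * (m * r₂ ^ m)) +
        2 * B * r₂ ^ m := by
    intro m hm
    rw [mem_filter, mem_Icc] at hm
    have hm1 : (1 : ℝ) ≤ m := by exact_mod_cast hm.1.1
    have hm0 : (0 : ℝ) < m := by linarith
    obtain ⟨hx1, hx2⟩ := hx m hm.1.1 hm.2
    have hρm := hρm m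
    have h3 : x m / m * (1 + ρ ^ m) ≤ (Lm q ν M c m + Rm q B κ M m) / m * (2 * ρ ^ m) := by
      refine mul_le_mul (div_le_div_of_nonneg_right hx2 hm0.le) (by linarith) (by positivity) ?_
      exact div_nonneg (hx1.trans hx2) hm0.le
    refine h3.trans ?_
    have h4 : (Lm q ν M c m + Rm q B κ M m) / m * (2 * ρ ^ m) =
        96 * (c + 2 * m / ν + 3) * (q ^ (3 - (M : ℝ) - eta ν * m) * ρ ^ m) +
        144 * B * m * (q ^ (3 - (M : ℝ) - κ * m) * ρ ^ m) + 2 * B * (q ^ (-(κ * m)) * ρ ^ m) := by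
      unfold Lm Rm
      field_simp
      ring
    rw [h4]
    have h5 := hcm m
    have h6 : 96 * ((c : ℝ) + 2 * m / ν + 3) * (q ^ (3 - (M : ℝ) - eta ν * m) * ρ ^ m) ≤
        96 * (c + 3 + 2 / 9 * m) * (δ * r₁ ^ m) := by
      refine mul_le_mul (by linarith) (p1 m) ?_ (by positivity)
      have := Real.rpow_pos_of_pos hq0 (3 - (M : ℝ) - eta ν * m)
      positivity
    have h7 : 144 * B * m * (q ^ (3 - (M : ℝ) - κ * m) * ρ ^ m) ≤ 144 * B * m * (δ * r₂ ^ m) :=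
      mul_le_mul_of_nonneg_left (p2 m) (by positivity)
    have h8 : 2 * B * (q ^ (-(κ * m)) * ρ ^ m) ≤ 2 * B * r₂ ^ m :=
      mul_le_mul_of_nonneg_left (p3 m) (by positivity)
    refine (add_le_add (add_le_add h6 h7) h8).trans (le_of_eq ?_)
    ring
  have term2 : ∀ m ∈ (Icc 1 D).filter (fun m => 2 * m < D), x m ≤
      δ * (48 * (c + 3) * (m * r₁ ^ m) + 48 * (2 / 9) * (m ^ 2 * r₁ ^ m) + 72 * B * (m ^ 2 * r₂ ^ m)) +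
        B * (m * r₂ ^ m) := by
    intro m hm
    rw [mem_filter, mem_Icc] at hm
    obtain ⟨-, hx2⟩ := hx m hm.1.1 hm.2
    refine hx2.trans ?_
    unfold Lm Rm
    have h5 := hcm m
    have h6 : 48 * (m : ℝ) * q ^ (3 - (M : ℝ) - eta ν * m) * (c + 2 * m / ν + 3) ≤
        48 * m * (δ * r₁ ^ m) * (c + 3 + 2 / 9 * m) := by
      refine mul_le_mul (mul_le_mul_of_nonneg_left (p1' m) (by positivity)) h5 (by positivity) ?_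
      positivity
    have h7 : 72 * B * (m : ℝ) ^ 2 * q ^ (3 - (M : ℝ) - κ * m) ≤ 72 * B * (m : ℝ) ^ 2 * (δ * r₂ ^ m) :=
      mul_le_mul_of_nonneg_left (p2' m) (by positivity)
    have h8 : B * m * q ^ (-(κ * m)) ≤ B * m * r₂ ^ m :=
      mul_le_mul_of_nonneg_left (p3' m) (by positivity)
    refine (add_le_add h6 (add_le_add h7 h8)).trans (le_of_eq ?_)
    ring
  -- summation
  have hn1 : ‖r₁‖ < 1 := by
    rw [Real.norm_of_nonneg hr1p.le]; exact hr1l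
  have hn2 : ‖r₂‖ < 1 := by
    rw [Real.norm_of_nonneg hr2p.le]; exact hr2l
  have s1 : Summable fun m : ℕ => r₁ ^ m := summable_geometric_of_lt_one hr1p.le hr1l
  have s2 : Summable fun m : ℕ => r₂ ^ m := summable_geometric_of_lt_one hr2p.le hr2l
  have s3 : Summable fun m : ℕ => (m : ℝ) * r₁ ^ m := by
    have := summable_pow_mul_geometric_of_norm_lt_one 1 hn1
    simpa using this
  have s4 : Summable fun m : ℕ => (m : ℝ) * r₂ ^ m := by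
    have := summable_pow_mul_geometric_of_norm_lt_one 1 hn2
    simpa using this
  have s5 : Summable fun m : ℕ => (m : ℝ) ^ 2 * r₁ ^ m := summable_pow_mul_geometric_of_norm_lt_one 2 hn1
  have s6 : Summable fun m : ℕ => (m : ℝ) ^ 2 * r₂ ^ m := summable_pow_mul_geometric_of_norm_lt_one 2 hn2
  obtain ⟨S, hS⟩ : ∃ S : Finset ℕ, S = (Icc 1 D).filter (fun m => 2 * m < D) := ⟨_, rfl⟩
  rw [← hS] at term term2 ⊢
  have t1 : ∑ m ∈ S, r₁ ^ m ≤ ∑' m : ℕ, r₁ ^ m := s1.sum_le_tsum _ fun _ _ => by positivity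
  have t2 : ∑ m ∈ S, r₂ ^ m ≤ ∑' m : ℕ, r₂ ^ m := s2.sum_le_tsum _ fun _ _ => by positivity
  have t3 : ∑ m ∈ S, (m : ℝ) * r₁ ^ m ≤ ∑' m : ℕ, (m : ℝ) * r₁ ^ m :=
    s3.sum_le_tsum _ fun _ _ => by positivity
  have t4 : ∑ m ∈ S, (m : ℝ) * r₂ ^ m ≤ ∑' m : ℕ, (m : ℝ) * r₂ ^ m :=
    s4.sum_le_tsum _ fun _ _ => by positivity
  have t5 : ∑ m ∈ S, (m : ℝ) ^ 2 * r₁ ^ m ≤ ∑' m : ℕ, (m : ℝ) ^ 2 * r₁ ^ m :=
    s5.sum_le_tsum _ fun _ _ => by positivity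
  have t6 : ∑ m ∈ S, (m : ℝ) ^ 2 * r₂ ^ m ≤ ∑' m : ℕ, (m : ℝ) ^ 2 * r₂ ^ m :=
    s6.sum_le_tsum _ fun _ _ => by positivity
  obtain ⟨A₀, hA₀⟩ : ∃ A₀ : ℝ, A₀ = ∑' m : ℕ, r₁ ^ m := ⟨_, rfl⟩
  obtain ⟨A₁, hA₁⟩ : ∃ A₁ : ℝ, A₁ = ∑' m : ℕ, (m : ℝ) * r₁ ^ m := ⟨_, rfl⟩
  obtain ⟨A₂, hA₂⟩ : ∃ A₂ : ℝ, A₂ = ∑' m : ℕ, (m : ℝ) ^ 2 * r₁ ^ m := ⟨_, rfl⟩
  obtain ⟨C₀, hC₀⟩ : ∃ C₀ : ℝ, C₀ = ∑' m : ℕ, r₂ ^ m := ⟨_, rfl⟩
  obtain ⟨C₁, hC₁⟩ : ∃ C₁ : ℝ, C₁ = ∑' m : ℕ, (m : ℝ) * r₂ ^ m := ⟨_, rfl⟩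
  obtain ⟨C₂, hC₂⟩ : ∃ C₂ : ℝ, C₂ = ∑' m : ℕ, (m : ℝ) ^ 2 * r₂ ^ m := ⟨_, rfl⟩
  rw [← hA₀] at t1
  rw [← hA₁] at t3
  rw [← hC₀] at t2
  rw [← hC₁] at t4
  rw [← hA₂] at t5
  rw [← hC₂] at t6
  rw [← hA₀, ← hA₁, ← hC₁] at h1
  rw [← hC₀] at h2
  rw [← hA₁, ← hA₂, ← hC₂] at h3
  rw [← hC₁] at h4
  have A0 : 0 ≤ A₀ := le_trans (sum_nonneg fun _ _ => by positivity) t1
  have A1 : 0 ≤ A₁ := le_trans (sum_nonneg fun _ _ => by positivity) t3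
  have A2 : 0 ≤ A₂ := le_trans (sum_nonneg fun _ _ => by positivity) t5
  have C0 : 0 ≤ C₀ := le_trans (sum_nonneg fun _ _ => by positivity) t2
  have C1 : 0 ≤ C₁ := le_trans (sum_nonneg fun _ _ => by positivity) t4
  have C2 : 0 ≤ C₂ := le_trans (sum_nonneg fun _ _ => by positivity) t6
  have hsum : ∑ m ∈ S, x m / m * (1 + ρ ^ m) ≤
      δ * (96 * (c + 3) * A₀ + 96 * (2 / 9) * A₁ + 144 * B * C₁) + 2 * B * C₀ := by
    refine (sum_le_sum term).trans ?_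
    rw [sum_add_distrib, ← mul_sum, ← mul_sum, sum_add_distrib, sum_add_distrib, ← mul_sum, ← mul_sum,
      ← mul_sum]
    have u1 : 96 * ((c : ℝ) + 3) * ∑ m ∈ S, r₁ ^ m ≤ 96 * (c + 3) * A₀ :=
      mul_le_mul_of_nonneg_left t1 (by positivity)
    have u2 : 96 * (2 / 9 : ℝ) * ∑ m ∈ S, (m : ℝ) * r₁ ^ m ≤ 96 * (2 / 9) * A₁ :=
      mul_le_mul_of_nonneg_left t3 (by positivity)
    have u3 : 144 * B * ∑ m ∈ S, (m : ℝ) * r₂ ^ m ≤ 144 * B * C₁ :=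
      mul_le_mul_of_nonneg_left t4 (by positivity)
    have u4 : 2 * B * ∑ m ∈ S, r₂ ^ m ≤ 2 * B * C₀ := mul_le_mul_of_nonneg_left t2 (by positivity)
    have u5 := mul_le_mul_of_nonneg_left (add_le_add (add_le_add u1 u2) u3) hδp.le
    exact add_le_add u5 u4
  have hsum2 : ∑ m ∈ S, x m ≤
      δ * (48 * (c + 3) * A₁ + 48 * (2 / 9) * A₂ + 72 * B * C₂) + B * C₁ := by
    refine (sum_le_sum term2).trans ?_
    rw [sum_add_distrib, ← mul_sum, ← mul_sum, sum_add_distrib, sum_add_distrib, ← mul_sum, ← mul_sum,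
      ← mul_sum]
    have u1 : 48 * ((c : ℝ) + 3) * ∑ m ∈ S, (m : ℝ) * r₁ ^ m ≤ 48 * (c + 3) * A₁ :=
      mul_le_mul_of_nonneg_left t3 (by positivity)
    have u2 : 48 * (2 / 9 : ℝ) * ∑ m ∈ S, (m : ℝ) ^ 2 * r₁ ^ m ≤ 48 * (2 / 9) * A₂ :=
      mul_le_mul_of_nonneg_left t5 (by positivity)
    have u3 : 72 * B * ∑ m ∈ S, (m : ℝ) ^ 2 * r₂ ^ m ≤ 72 * B * C₂ :=
      mul_le_mul_of_nonneg_left t6 (by positivity)
    have u4 : B * ∑ m ∈ S, (m : ℝ) * r₂ ^ m ≤ B * C₁ := mul_le_mul_of_nonneg_left t4 hB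
    have u5 := mul_le_mul_of_nonneg_left (add_le_add (add_le_add u1 u2) u3) hδp.le
    exact add_le_add u5 u4
  -- the logarithm on the left
  have hlog : Real.log (ρ / (ρ - 1)) ≤ Real.log (1 / (1 - r₂)) := by
    have h3 : 1 / ρ ≤ r₂ := by
      have : 1 / ρ = q ^ (-(κ / 2)) := by rw [Real.rpow_neg hq0.le, hρ, one_div]
      rw [this, hr₂]
      exact pw hq le_rfl (by linarith)
    have h4 : ρ / (ρ - 1) = 1 / (1 - 1 / ρ) := by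
      have : ρ - 1 ≠ 0 := by linarith
      have : ρ ≠ 0 := by linarith
      field_simp
    rw [h4]
    refine Real.log_le_log ?_ ?_
    · have : 1 - 1 / ρ > 0 := by linarith
      positivity
    · exact div_le_div_of_nonneg_left zero_le_one (by linarith) (by linarith)
  -- the right side
  have hDr : 9 * ((M : ℝ) - 2) ≤ D := by
    have h3 : ((ν * (M - 2) : ℕ) : ℝ) ≤ D := by exact_mod_cast hD
    rw [Nat.cast_mul, Nat.cast_sub (by omega)] at h3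
    push_cast at h3
    have h4 : 9 * ((M : ℝ) - 2) ≤ ν * ((M : ℝ) - 2) := mul_le_mul_of_nonneg_right hνr (by linarith)
    linarith
  have hD9 : (9 : ℝ) ≤ D := by linarith
  have hcr : (c : ℝ) ≤ D / 9 + 1 := by
    have h3 : 9 * (c - 1) ≤ D := (Nat.mul_le_mul_right _ hν).trans hc
    have h4 : 9 * c ≤ D + 9 := by omega
    have h5 : 9 * (c : ℝ) ≤ D + 9 := by exact_mod_cast h4
    linarith
  refine ⟨?_, ?_⟩
  · refine hsum2.trans ?_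
    have e1 : 48 * ((c : ℝ) + 3) * A₁ + 48 * (2 / 9) * A₂ + 72 * B * C₂ ≤
        D * (48 * A₁ + 11 * A₂ + 72 * B * C₂) := by
      have f1 : 48 * ((c : ℝ) + 3) * A₁ ≤ 48 * D * A₁ :=
        mul_le_mul_of_nonneg_right (by linarith) A1
      have f2 : 48 * (2 / 9) * A₂ ≤ 11 * D * A₂ := mul_le_mul_of_nonneg_right (by linarith) A2
      have f3 : 72 * B * C₂ ≤ D * (72 * B * C₂) :=
        le_mul_of_one_le_left (by positivity) (by linarith)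
      linarith
    have e2 := mul_le_mul_of_nonneg_left e1 hδp.le
    have e3 := mul_le_mul_of_nonneg_left h3 (show (0 : ℝ) ≤ D by positivity)
    have e4 := h4.trans hDr
    rw [div_le_iff₀ hδ'] at e4
    linarith
  have hright : (D : ℝ) * κ / 6 ≤ (D : ℝ) / 2 * Real.log ρ := by
    rw [hρ, Real.log_rpow hq0]
    have h3 : Real.log 2 ≤ Real.log q := Real.log_le_log (by norm_num) hq
    have h4 := Real.log_two_gt_d9
    have h5 : (2 : ℝ) / 3 ≤ Real.log q := by linarith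
    have h6 : 0 ≤ (D : ℝ) / 2 * (κ / 2) := by positivity
    have h7 := mul_le_mul_of_nonneg_left h5 h6
    linarith
  have h3 : δ * (96 * ((c : ℝ) + 3) * A₀ + 96 * (2 / 9) * A₁ + 144 * B * C₁) ≤ D * (κ / 20) := by
    have e1 : 96 * ((c : ℝ) + 3) * A₀ + 96 * (2 / 9) * A₁ + 144 * B * C₁ ≤
        D * (96 * A₀ + 22 * A₁ + 144 * B * C₁) := by
      have f1 : 96 * ((c : ℝ) + 3) * A₀ ≤ 96 * D * A₀ :=
        mul_le_mul_of_nonneg_right (by linarith) A0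
      have f2 : 96 * (2 / 9) * A₁ ≤ 22 * D * A₁ := mul_le_mul_of_nonneg_right (by linarith) A1
      have f3 : 144 * B * C₁ ≤ D * (144 * B * C₁) :=
        le_mul_of_one_le_left (by positivity) (by linarith)
      linarith
    have e2 := mul_le_mul_of_nonneg_left e1 hδp.le
    have e3 := mul_le_mul_of_nonneg_left h1 (show (0 : ℝ) ≤ D by positivity)
    linarith
  have h4 : 2 * B * C₀ + 2 * Real.log (1 / (1 - r₂)) + Real.log (25 / κ) + Real.log (64 / δ') ≤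
      D * (κ / 20) := by
    have e1 := h2.trans hDr
    rw [div_le_iff₀ hκ] at e1
    linarith
  have h6 : Real.log ((D : ℝ) / 2 + 1) ≤ D * κ / 50 + Real.log (25 / κ) := by
    have e1 : Real.log ((κ / 25) * ((D : ℝ) / 2 + 1)) ≤ (κ / 25) * ((D : ℝ) / 2 + 1) - 1 :=
      Real.log_le_sub_one_of_pos (by positivity)
    rw [Real.log_mul (by positivity) (by positivity)] at e1
    have e2 : Real.log (25 / κ) = - Real.log (κ / 25) := by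
      rw [← Real.log_inv, inv_div]
    rw [e2]
    linarith
  have h5 : 0 < (D : ℝ) * κ := by positivity
  linarith

theorem t_NUM2 : Pool.Agent.Q284.GE.S_NUM2 := by
  intro B κ δ hB hκ hκ2 hδ
  obtain ⟨C₁, hC₁⟩ : ∃ C₁ : ℝ, C₁ = 96 * (∑' m : ℕ, ((2 : ℝ) ^ (-(1 / 24 : ℝ))) ^ m) +
      22 * (∑' m : ℕ, (m : ℝ) * ((2 : ℝ) ^ (-(1 / 24 : ℝ))) ^ m) +
      144 * B * (∑' m : ℕ, (m : ℝ) * ((2 : ℝ) ^ (-(κ / 2))) ^ m) := ⟨_, rfl⟩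
  obtain ⟨C₂, hC₂⟩ : ∃ C₂ : ℝ, C₂ = 20 * (2 * B * (∑' m : ℕ, ((2 : ℝ) ^ (-(κ / 2))) ^ m) +
      2 * Real.log (1 / (1 - (2 : ℝ) ^ (-(κ / 2)))) + Real.log (25 / κ) + Real.log (64 / δ)) / κ := ⟨_, rfl⟩
  obtain ⟨C₃, hC₃⟩ : ∃ C₃ : ℝ, C₃ = 48 * (∑' m : ℕ, (m : ℝ) * ((2 : ℝ) ^ (-(1 / 24 : ℝ))) ^ m) +
      11 * (∑' m : ℕ, (m : ℝ) ^ 2 * ((2 : ℝ) ^ (-(1 / 24 : ℝ))) ^ m) +
      72 * B * (∑' m : ℕ, (m : ℝ) ^ 2 * ((2 : ℝ) ^ (-(κ / 2))) ^ m) := ⟨_, rfl⟩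
  obtain ⟨C₄, hC₄⟩ : ∃ C₄ : ℝ, C₄ = 32 * (B * (∑' m : ℕ, (m : ℝ) * ((2 : ℝ) ^ (-(κ / 2))) ^ m)) / δ :=
    ⟨_, rfl⟩
  have hlim : ∀ C : ℝ, ∀ ε : ℝ, 0 < ε → ∀ᶠ M : ℕ in atTop, (2 : ℝ) ^ (3 - (M : ℝ)) * C ≤ ε := by
    intro C ε hε
    have h1 := delta_tend.mul_const C
    rw [zero_mul] at h1
    exact (h1.eventually (gt_mem_nhds hε)).mono fun M hM => hM.le
  have hlin : ∀ C : ℝ, ∀ᶠ M : ℕ in atTop, C ≤ 9 * ((M : ℝ) - 2) := by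
    intro C
    filter_upwards [eventually_ge_atTop (⌈C⌉₊ + 3)] with M hM
    have h1 : C ≤ ⌈C⌉₊ := Nat.le_ceil C
    have h2 : ((⌈C⌉₊ + 3 : ℕ) : ℝ) ≤ M := by exact_mod_cast hM
    push_cast at h2
    have h3 : (0 : ℝ) ≤ ⌈C⌉₊ := by positivity
    linarith
  obtain ⟨M₁, hM₁⟩ := eventually_atTop.1 ((hlim C₁ (κ / 20) (by positivity)).and
    ((hlin C₂).and ((hlim C₃ (δ / 32) (by positivity)).and (hlin C₄))))
  refine ⟨max M₁ 3, le_max_right _ _, fun M hM q ν hq hν c D hc hD x hx => ?_⟩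
  obtain ⟨g1, g2, g3, g4⟩ := hM₁ M ((le_max_left _ _).trans hM)
  have hM3 : 3 ≤ M := (le_max_right _ _).trans hM
  exact est2 hq hB hκ hκ2 hδ hν hM3 (by rw [← hC₁]; exact g1) (by rw [← hC₂]; exact g2)
    (by rw [← hC₃]; exact g3) (by rw [← hC₄]; exact g4) c D hc hD x hx

end Pool.Agent.Q195.GE
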